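import Mathlib

set_option autoImplicit false

namespace Pool.Agent.Results.MP_cd30d4_co.AllCoeffsNonneg

open PowerSeries

/-- `B_r(x) = e^x - ∑_{k<r} x^k/k!` as a formal power series over `ℝ`. -/
noncomputable def B (r : ℕ) : PowerSeries ℝ :=
  PowerSeries.exp ℝ - ∑ k ∈ Finset.range r, PowerSeries.monomial k (1 / (k.factorial : ℝ))

/-- `G_r(x) = e^{-x/(r+1)} B_r(x)` as a formal power series over `ℝ`. -/
noncomputable def G (r : ℕ) : PowerSeries ℝ :=
  PowerSeries.rescale (-1 / ((r : ℝ) + 1)) (PowerSeries.exp ℝ) * B r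

theorem coeff_B (r k : ℕ) : coeff k (B r) = if r ≤ k then 1 / (k.factorial : ℝ) else 0 := by
  unfold B
  rw [map_sub, map_sum]
  simp only [coeff_monomial, coeff_exp]
  rw [Finset.sum_ite_eq]
  simp only [Finset.mem_range]
  by_cases h : r ≤ k
  · simp [h]
  · simp [h, not_le.1 h]

theorem deriv_B (s : ℕ) : derivative ℝ (B (s + 1)) = B (s + 1) + monomial s (1 / (s.factorial : ℝ)) := by
  ext k
  rw [coeff_derivative, map_add, coeff_B, coeff_B, coeff_monomial]
  rcases lt_trichotomy k s with h | h | h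
  · have h1 : ¬ (s + 1 ≤ k + 1) := by omega
    have h2 : ¬ (s + 1 ≤ k) := by omega
    have h3 : ¬ (k = s) := by omega
    simp [h1, h2, h3]
  · subst h
    have h2 : ¬ (k + 1 ≤ k) := by omega
    simp only [le_refl, if_true, h2, if_false, zero_add]
    rw [Nat.factorial_succ]
    push_cast
    field_simp
  · have h1 : (s + 1 ≤ k + 1) := by omega
    have h2 : (s + 1 ≤ k) := by omega
    have h3 : ¬ (k = s) := by omega
    simp only [h1, h2, h3, if_true, if_false, add_zero]
    rw [Nat.factorial_succ]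
    push_cast
    field_simp

theorem deriv_e (a : ℝ) : derivative ℝ (rescale a (PowerSeries.exp ℝ)) = a • rescale a (PowerSeries.exp ℝ) := by
  ext k
  rw [coeff_derivative, coeff_smul, coeff_rescale, coeff_rescale, coeff_exp, coeff_exp,
    Nat.factorial_succ]
  simp only [smul_eq_mul, map_div₀, map_one, map_natCast]
  push_cast
  have : (k.factorial : ℝ) ≠ 0 := by positivity
  field_simp
  ring

/-- the first order recurrence -/
theorem rec1 (s n : ℕ) : coeff (n + 1) (G (s + 1)) * ((n : ℝ) + 1)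
    = ((s : ℝ) + 1) / (s + 2) * coeff n (G (s + 1))
      + (if s ≤ n then (-1 / ((s : ℝ) + 2)) ^ (n - s) / ((n - s).factorial : ℝ) / (s.factorial : ℝ) else 0) := by
  have h : derivative ℝ (G (s + 1)) = (((s : ℝ) + 1) / (s + 2)) • G (s + 1)
      + rescale (-1 / (((s + 1 : ℕ) : ℝ) + 1)) (PowerSeries.exp ℝ) * monomial s (1 / (s.factorial : ℝ)) := by
    unfold G
    rw [Derivation.leibniz, deriv_B, deriv_e]
    simp only [smul_eq_mul, mul_add]
    rw [mul_smul_comm, mul_comm (B (s + 1))]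
    have : (((s : ℝ) + 1) / (s + 2)) = 1 + (-1 / (((s + 1 : ℕ) : ℝ) + 1)) := by
      push_cast
      field_simp
      ring
    rw [this, add_smul, one_smul]
    ring
  have h2 := congrArg (coeff n) h
  rw [coeff_derivative, map_add, coeff_smul] at h2
  rw [h2, smul_eq_mul]
  congr 1
  have hm : (monomial s (1 / (s.factorial : ℝ)) : PowerSeries ℝ) = C (1 / (s.factorial : ℝ)) * X ^ s := by
    ext k
    rw [coeff_monomial, coeff_C_mul, coeff_X_pow]
    split_ifs <;> simp
  rw [hm, ← mul_assoc, coeff_mul_X_pow']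
  by_cases hs : s ≤ n
  · simp only [hs, if_true]
    rw [mul_comm, coeff_C_mul, coeff_rescale, coeff_exp]
    simp only [map_div₀, map_one, map_natCast]
    push_cast
    have e1 : (s : ℝ) + 1 + 1 = s + 2 := by ring
    rw [e1]
    field_simp
  · simp [hs]

theorem coeff_G_lt {r n : ℕ} (h : n < r) : coeff n (G r) = 0 := by
  unfold G
  rw [coeff_mul]
  apply Finset.sum_eq_zero
  intro p hp
  rw [Finset.HasAntidiagonal.mem_antidiagonal] at hp
  rw [coeff_B, if_neg (by omega), mul_zero]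

/-- the second order recurrence, whose coefficients are nonnegative -/
theorem rec2 (s n : ℕ) (hn : s + 1 ≤ n) : coeff (n + 1) (G (s + 1)) * (((n : ℝ) + 1) * (n - s))
    = (s : ℝ) / (s + 2) * (n - (s + 1)) * coeff n (G (s + 1))
      + ((s : ℝ) + 1) / (s + 2) ^ 2 * coeff (n - 1) (G (s + 1)) := by
  obtain ⟨m, rfl⟩ := Nat.exists_eq_add_of_le hn
  have h1 := rec1 s (s + 1 + m)
  have h0 := rec1 s (s + m)
  rw [if_pos (by omega)] at h1 h0
  have e1 : s + 1 + m - s = m + 1 := by omega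
  have e0 : s + m - s = m := by omega
  have e2 : s + 1 + m - 1 = s + m := by omega
  have e3 : s + m + 1 = s + 1 + m := by omega
  rw [e1] at h1
  rw [e0, e3] at h0
  rw [e2]
  rw [pow_succ, Nat.factorial_succ] at h1
  have hf : (m.factorial : ℝ) ≠ 0 := by positivity
  have hf2 : (s.factorial : ℝ) ≠ 0 := by positivity
  have hm : (m : ℝ) + 1 ≠ 0 := by positivity
  have hs2 : (s : ℝ) + 2 ≠ 0 := by positivity
  push_cast at h1 h0 ⊢
  have key : (-1 / ((s : ℝ) + 2)) ^ m * (-1 / (s + 2)) / (((m : ℝ) + 1) * m.factorial) / s.factorial * ((m : ℝ) + 1)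
      = (-1 / ((s : ℝ) + 2)) * ((-1 / ((s : ℝ) + 2)) ^ m / m.factorial / s.factorial) := by
    field_simp
  have h1' : (-1 / ((s : ℝ) + 2)) ^ m * (-1 / (s + 2)) / (((m : ℝ) + 1) * m.factorial) / s.factorial
      = (coeff (s + 1 + m + 1)) (G (s + 1)) * ((s : ℝ) + 1 + m + 1) - (s + 1) / (s + 2) * (coeff (s + 1 + m)) (G (s + 1)) := by
    linarith
  have h0' : ((-1 / ((s : ℝ) + 2)) ^ m / m.factorial / s.factorial)
      = (coeff (s + 1 + m)) (G (s + 1)) * ((s : ℝ) + m + 1) - (s + 1) / (s + 2) * (coeff (s + m)) (G (s + 1)) := by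
    linarith
  rw [h1', h0'] at key
  field_simp at key ⊢
  linarith

theorem nonneg_aux (s : ℕ) : ∀ n, 0 ≤ coeff n (G (s + 1)) ∧ 0 ≤ coeff (n + 1) (G (s + 1)) := by
  have base : 0 ≤ coeff (s + 1) (G (s + 1)) := by
    have h := rec1 s s
    rw [coeff_G_lt (by omega : s < s + 1), if_pos le_rfl] at h
    simp only [mul_zero, zero_add, Nat.sub_self, pow_zero, Nat.factorial_zero, Nat.cast_one, div_one] at h
    have h2 : 0 ≤ coeff (s + 1) (G (s + 1)) * ((s : ℝ) + 1) := by rw [h]; positivity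
    exact nonneg_of_mul_nonneg_left h2 (by positivity)
  intro n
  induction n with
  | zero =>
    rw [coeff_G_lt (by omega : 0 < s + 1)]
    refine ⟨le_rfl, ?_⟩
    rcases Nat.eq_zero_or_pos s with h | h
    · subst h; exact base
    · rw [coeff_G_lt (by omega : 0 + 1 < s + 1)]
  | succ n ih =>
    refine ⟨ih.2, ?_⟩
    by_cases h : s + 1 ≤ n + 1
    · have h2 := rec2 s (n + 1) h
      have h3 : n + 1 - 1 = n := rfl
      rw [h3] at h2
      have hpos : (0 : ℝ) < (((n + 1 : ℕ) : ℝ) + 1) * (((n + 1 : ℕ) : ℝ) - s) := by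
        have : (s : ℝ) + 1 ≤ ((n + 1 : ℕ) : ℝ) := by exact_mod_cast h
        apply mul_pos (by positivity) (by linarith)
      have h4 : (0 : ℝ) ≤ coeff (n + 1 + 1) (G (s + 1)) * ((((n + 1 : ℕ) : ℝ) + 1) * (((n + 1 : ℕ) : ℝ) - s)) := by
        rw [h2]
        have : (s : ℝ) + 1 ≤ ((n + 1 : ℕ) : ℝ) := by exact_mod_cast h
        have h5 : (0 : ℝ) ≤ (s : ℝ) / (s + 2) * (((n + 1 : ℕ) : ℝ) - (s + 1)) * coeff (n + 1) (G (s + 1)) := by
          apply mul_nonneg (mul_nonneg (by positivity) (by linarith)) ih.2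
        have h6 : (0 : ℝ) ≤ ((s : ℝ) + 1) / (s + 2) ^ 2 * coeff n (G (s + 1)) :=
          mul_nonneg (by positivity) ih.1
        linarith
      exact nonneg_of_mul_nonneg_left h4 hpos
    · rcases Nat.lt_or_ge (n + 1) s with h1 | h1
      · rw [coeff_G_lt (by omega)]
      · have : n + 1 = s := by omega
        rw [this]
        exact base

/-- Every Taylor coefficient of `G_r(x) = e^{-x/(r+1)} (e^x - ∑_{k<r} x^k/k!)` is nonnegative, for every `r ≥ 1`. -/
theorem result (r : ℕ) (hr : 1 ≤ r) (n : ℕ) : 0 ≤ coeff n (G r) := by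
  obtain ⟨s, rfl⟩ := Nat.exists_eq_add_of_le' hr
  exact (nonneg_aux s n).1

end Pool.Agent.Results.MP_cd30d4_co.AllCoeffsNonneg
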